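import Mathlib
import Pool.Agent.PiBase.TightDer

/-!
Scattered compact spaces `X` for which `C_p(X)` has a point-countable π-base: spaces of size at
most `ℵ₁`, spaces of finite height, spaces of height less than `ω₁ * ω` and spaces with few points
of uncountable tightness (both under a hypothesis on the cardinal `#X`), and all spaces with
sufficiently large closed subspaces of one of these kinds.
-/

set_option autoImplicit false

open Topology Cardinal Ordinal

namespace Pool.Agent.Results.MP_c0a969_gt.TightnessRank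

universe u

/-- `C_p(X)` has a point-countable π-base (as in the frozen statements of this problem). -/
def HasPointCountablePiBase (X : Type u) [TopologicalSpace X] : Prop :=
  ∃ 𝓑 : Set (Set C(X, ℝ)),
    (∀ B ∈ 𝓑,
      @IsOpen C(X, ℝ)
        (TopologicalSpace.induced (fun f : C(X, ℝ) => (f : X → ℝ)) inferInstance) B
      ∧ B.Nonempty) ∧
    (∀ U : Set C(X, ℝ),
      @IsOpen C(X, ℝ)
        (TopologicalSpace.induced (fun f : C(X, ℝ) => (f : X → ℝ)) inferInstance) U →
      U.Nonempty → ∃ B ∈ 𝓑, B ⊆ U) ∧
    (∀ f : C(X, ℝ), {B ∈ 𝓑 | f ∈ B}.Countable)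

/-- The tightness of `Z` at `z` is countable. -/
def TightAt {Z : Type u} [TopologicalSpace Z] (z : Z) : Prop :=
  ∀ A : Set Z, z ∈ closure A → ∃ C ⊆ A, C.Countable ∧ z ∈ closure C

/-- `c ^ ℵ₀ < #Z` for all `c < #Z`; or `#Z` is regular and for every `A ⊆ Z` with `#A < #Z` the
union of the closures of the countable subsets of `A` has size less than `#Z`. -/
def CardinalCondition (Z : Type u) [TopologicalSpace Z] : Prop :=
  (∀ c : Cardinal.{u}, c < #Z → c ^ ℵ₀ < #Z) ∨
    ((#Z).IsRegular ∧ ∀ A : Set Z, #A < #Z →
      #{z : Z | ∃ C ⊆ A, C.Countable ∧ z ∈ closure C} < #Z)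

/-- For some natural number `n` and some function `ρ` from `Z` to the ordinals such that every `z`
has an open neighbourhood whose other points `y` all satisfy `ρ y < ρ z` (for instance the
Cantor–Bendixson rank), fewer than `#Z` points of `Z` satisfy `ω₁ * n ≤ ρ z`. -/
def SmallRank (Z : Type u) [TopologicalSpace Z] : Prop :=
  ∃ ρ : Z → Ordinal.{u},
    (∀ z, ∃ U : Set Z, IsOpen U ∧ z ∈ U ∧ ∀ y ∈ U, y ≠ z → ρ y < ρ z) ∧
    ∃ n : ℕ, #{z : Z | ω₁ * n ≤ ρ z} < #Z

/-- One of: for some natural number `n` the `n`-th Cantor–Bendixson derivative of `Z` has at most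
`ℵ₁` points or fewer points than `Z` (`n = 0`: `Z` has at most `ℵ₁` points); fewer than `#Z` points
of `Z` have no countable neighbourhood; the cardinal condition holds, and fewer than `#Z` points
of `Z` have uncountable tightness or `Z` has small rank. -/
def Admissible (Z : Type u) [TopologicalSpace Z] : Prop :=
  (∃ n : ℕ, #(derivedSet^[n] (Set.univ : Set Z)) ≤ ℵ₁ ∨
      #(derivedSet^[n] (Set.univ : Set Z)) < #Z) ∨
    #{z : Z | ∀ V ∈ 𝓝 z, ¬ V.Countable} < #Z ∨
    (CardinalCondition Z ∧ (#{z : Z | ¬ TightAt z} < #Z ∨ SmallRank Z))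

/-- Let `X` be a scattered compact Hausdorff space. If `X` has closed subspaces `Y n` (`n ∈ ℕ`) that
are all admissible, and the size of `X` is at most the supremum of the sizes of the `Y n`, then
`C_p(X)` has a point-countable π-base. -/
theorem result (X : Type u) [TopologicalSpace X] [T2Space X] [CompactSpace X]
    (scattered : ∀ s : Set X, s.Nonempty → ∃ x ∈ s, ∃ U : Set X, IsOpen U ∧ U ∩ s = {x})
    (Y : ℕ → Set X) (closed : ∀ n, IsClosed (Y n)) (admissible : ∀ n, Admissible (Y n))
    (size : #X ≤ ⨆ n, #(Y n)) : HasPointCountablePiBase X :=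
  Pool.Agent.PiBase.piBase_of_admD scattered Y closed size admissible

end Pool.Agent.Results.MP_c0a969_gt.TightnessRank
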